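import Pool.Agent.U201.GC.Gal
import Pool.Agent.U201.EC.Cones

/-!
# The closed cone and the effective cone of `X`, in general
-/

set_option autoImplicit false

namespace Pool.Agent.U201.GC

open Finset Filter Topology
open Pool.Agent.W594.SYZ2 Pool.Agent.W594.SYZ2.TQ Pool.Agent.TH735.AQ
open Pool.Agent.X324.CF Pool.Agent.U201.EC
open Pool.Agent.Y167 (cone cone_add cone_smul cone_le cone_mono cone_sum mem_cone_self
  zero_mem_cone cone_image cone_ind cone_of_scaled mem_cone_of_sum Rel Pol Cp CData)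

variable {V E R : Type*} [NormedAddCommGroup V] [NormedSpace ℂ V]
  [NormedAddCommGroup E] [NormedSpace ℂ E] [CommRing R] [Algebra ℂ R] {ρ : ℕ}
  {𝒜 : Cl ρ → Submodule ℂ R} {Γ : Grp V R} {j : E →ₗ[ℂ] V} {u : Cl ρ} {Pos : Cl ρ → Prop}
  {Au H : (R ≃ₐ[ℂ] R) → (Cl ρ ≃+ Cl ρ) → Prop} {H₀ : V → V → ℂ}

variable (𝒜 Γ j Pos) in
/-- The classes with semidefinite form and degree in the closed cone. -/
def KP : Set (N1 𝒜 Γ j) := {a | (∀ e, 0 ≤ ((val a).1 e e).re) ∧ (val a).2 ∈ PosC Pos}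

theorem KP_zero : (0 : N1 𝒜 Γ j) ∈ KP 𝒜 Γ j Pos := ⟨fun _ => le_refl (0 : ℝ), posC_zero⟩

theorem KP_add {a b : N1 𝒜 Γ j} (ha : a ∈ KP 𝒜 Γ j Pos) (hb : b ∈ KP 𝒜 Γ j Pos) :
    a + b ∈ KP 𝒜 Γ j Pos := by
  refine ⟨fun e => ?_, posC_add ha.2 hb.2⟩
  change 0 ≤ ((val a).1 e e + (val b).1 e e).re
  rw [Complex.add_re]
  exact add_nonneg (ha.1 e) (hb.1 e)

theorem KP_smul {a : N1 𝒜 Γ j} {t : ℝ} (ht : 0 ≤ t) (ha : a ∈ KP 𝒜 Γ j Pos) :
    t • a ∈ KP 𝒜 Γ j Pos := by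
  refine ⟨fun e => ?_, posC_smul ht ha.2⟩
  change 0 ≤ (t • (val a).1 e e).re
  rw [Complex.smul_re]
  exact mul_nonneg ht (ha.1 e)

theorem KP_closed : IsClosed (KP 𝒜 Γ j Pos) := by
  have hval : Continuous (val : N1 𝒜 Γ j → Pairs E ρ) := continuous_subtype_val
  have h1 : KP 𝒜 Γ j Pos = (⋂ e : E, {a : N1 𝒜 Γ j | 0 ≤ ((val a).1 e e).re}) ∩
      {a : N1 𝒜 Γ j | (val a).2 ∈ PosC Pos} := by
    ext a
    simp [KP]
  rw [h1]
  refine IsClosed.inter (isClosed_iInter fun e => ?_) ?_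
  · refine isClosed_le continuous_const (Complex.continuous_re.comp ?_)
    exact (continuous_apply e).comp ((continuous_apply e).comp (continuous_fst.comp hval))
  · exact isClosed_closure.preimage (continuous_snd.comp hval)

/-- A set of positive classes of `X`. -/
structure GoodQ (Pos : Cl ρ → Prop) (Q : Set (N1 𝒜 Γ j)) : Prop where
  form : ∀ a ∈ Q, ∀ e, 0 ≤ ((val a).1 e e).re
  deg_mem : ∀ a ∈ Q, (val a).2 ∈ PosC Pos
  bpf : ∀ L : LineBundle (base Γ), (∀ v, ∃ s, L.IsSection s ∧ s v ≠ 0) →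
    ∀ a : N1 𝒜 Γ j, IsClass j (Sheaf.ofLB L : Sheaf 𝒜 Γ) (val a) → a ∈ Q
  deg : ∀ β, X324.CF.Inv 𝒜 Γ β → Pos β → ∃ M : ℕ, 0 < M ∧ ∃ a ∈ Q, val a = (0, (M : ℝ) • rv β)
  eff : ∀ a ∈ Q, a ∈ effCone 𝒜 Γ j

variable [IsDomain R] [GradedAlgebra 𝒜]

/-- The effective classes of `F` which are invariant give effective classes of `X`. -/
theorem deg_eff' (F : PosSys 𝒜 u Pos Au H) (hQ : IsQuotient 𝒜 u Γ) {β : Cl ρ}
    (hβ : X324.CF.Inv 𝒜 Γ β) (h : rv β ∈ PosC Pos) : ∃ M : ℕ, 0 < M ∧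
      ∃ a ∈ effective 𝒜 Γ j, val a = (0, (M : ℝ) • rv β) := by
  classical
  have := hQ.fin_gal
  have : Fintype (gal Γ) := Fintype.ofFinite _
  obtain ⟨m, hm, r, hr, hr0⟩ := pos_mult F h
  obtain ⟨a, ha1, ha2⟩ := exists_degclass (j := j) F.base hQ hβ m
  exact ⟨Nat.card (gal Γ) * m, Nat.mul_pos Nat.card_pos hm, a,
    ⟨_, _, ha1, ofDeg_section hr, 0, nrm_ne_zero hr0⟩, ha2⟩

omit [IsDomain R] in
theorem i2_pos (F : PosSys 𝒜 u Pos Au H) (hQ : IsQuotient 𝒜 u Γ) {Q : Set (N1 𝒜 Γ j)}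
    (G : GoodQ Pos Q) {b : Bs 𝒜 Γ} (hb : Inn (PosC Pos) (rv u) b.1) :
    (i2 F.base hQ b : N1 𝒜 Γ j) ∈ coneHull Q := by
  classical
  have := hQ.fin_gal
  have : Fintype (gal Γ) := Fintype.ofFinite _
  refine i2_hull' F.base hQ (Q := Pos) (fun β hβ h => G.deg β hβ h) ?_
  exact avg_hull F.base hQ (fun β hβ => F.pos_sum _ _ fun φ _ =>
    F.pos_act _ _ _ (F.au_fix _ _ (sg_spec hQ φ) (inv_sg hQ hQ.inv φ)) hβ) b.2 (inn_hull' F hb)

variable [FiniteDimensional ℂ V] [FiniteDimensional ℂ E]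

/-- Interior classes are combinations of positive classes. -/
theorem inn_pos (F : PosSys 𝒜 u Pos Au H) (hQ : IsQuotient 𝒜 u Γ) {Q : Set (N1 𝒜 Γ j)}
    (G : GoodQ Pos Q) (Rl : Rel (base Γ) j H₀)
    {a : N1 𝒜 Γ j} {t : ℝ} (ht : 0 < t) (h : ∀ e, t * (H₀ (j e) (j e)).re ≤ ((val a).1 e e).re)
    (hi : Inn (PosC Pos) (rv u) (val a).2) : a ∈ coneHull Q := by
  rw [← split F.base hQ a]
  exact hull_add (i1_hull G.bpf (interior_form Rl ht h)) (i2_pos F hQ G hi)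

theorem closure_eqP (F : PosSys 𝒜 u Pos Au H) (hQ : IsQuotient 𝒜 u Γ) {Q : Set (N1 𝒜 Γ j)}
    (G : GoodQ Pos Q) (Rl : Rel (base Γ) j H₀) : closure (coneHull Q) = KP 𝒜 Γ j Pos := by
  apply Set.Subset.antisymm
  · exact closure_minimal (fun _ ha => hull_ind (p := fun a => a ∈ KP 𝒜 Γ j Pos) KP_zero
      (fun _ _ h1 h2 => KP_add h1 h2) (fun _ _ ht h => KP_smul ht h)
      (fun a ha => ⟨G.form a ha, G.deg_mem a ha⟩) ha) KP_closed
  · intro a ha
    obtain ⟨y, hy, hy'⟩ := Pool.Agent.Y167.exists_ample Rl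
    let y₀ : N1 𝒜 Γ j := i1 y + i2 F.base hQ ⟨rv u, Submodule.subset_span ⟨u, hQ.inv, rfl⟩⟩
    have key : ∀ ε : ℝ, 0 < ε → a + ε • y₀ ∈ coneHull Q := by
      intro ε hε
      refine inn_pos F hQ G Rl hε (fun e => ?_) ⟨ε, hε, ?_⟩
      · have h1 : (val (a + ε • y₀)).1 e e = (val a).1 e e + ε • H₀ (j e) (j e) := by
          change (val a).1 e e + ε • (y.1 e e + 0) = _
          rw [add_zero, hy']
        rw [h1, Complex.add_re, Complex.smul_re, smul_eq_mul]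
        linarith [ha.1 e]
      · have h1 : (val (a + ε • y₀)).2 = (val a).2 + ε • rv u := by
          change (val a).2 + ε • ((0 : Fin ρ → ℝ) + rv u) = _
          rw [zero_add]
        rw [h1, add_sub_cancel_right]
        exact ha.2
    exact mem_closure_of_tendsto (tends a y₀) (Eventually.of_forall fun k => key _ (by positivity))

omit [IsDomain R] [FiniteDimensional ℂ V] in
/-- Invariant classes in the effective closed cone are combinations of invariant integral classes. -/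
theorem poseff_hull (F : PosSys 𝒜 u Pos Au H) (hQ : IsQuotient 𝒜 u Γ) {b : Fin ρ → ℝ}
    (hb : b ∈ Bs 𝒜 Γ) (h : b ∈ PosC Pos ∩ EffF 𝒜) :
    b ∈ coneHull {a | ∃ β, (X324.CF.Inv 𝒜 Γ β ∧ rv β ∈ PosC Pos) ∧ a = rv β} := by
  classical
  have := hQ.fin_gal
  have : Fintype (gal Γ) := Fintype.ofFinite _
  obtain ⟨P, hP, hcov⟩ := F.cone
  obtain ⟨φ, σ, h1, h2⟩ := hcov b h
  refine avg_hull F.base hQ (P := fun β => rv β ∈ PosC Pos) (fun β hβ => ?_) hb ?_
  · rw [rv_sum]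
    refine Finset.sum_induction _ (fun x => x ∈ PosC Pos) (fun _ _ => posC_add) posC_zero
      fun φ _ => ?_
    rw [← rs_rv]
    exact posC_act F (F.au_fix _ _ (sg_spec hQ φ) (inv_sg hQ hQ.inv φ)) hβ
  · have h3 : b = rl σ.symm (rs σ b) := by
      change b = rs σ.symm (rs σ b)
      rw [rs_symm]
      exact ((rs σ).symm_apply_apply b).symm
    rw [h3]
    refine hull_map (P := {a | a ∈ P}) (fun a ha => ?_) ⟨P, fun a ha => ha, h2⟩
    obtain ⟨⟨β, rfl⟩, h4, -⟩ := hP a ha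
    refine hull_mem ⟨σ.symm β, ?_, rl_rv _ _⟩
    rw [← rs_rv]
    exact posC_act F (F.au_inv _ _ (F.h_au _ _ h1)) h4

/-- The effective nef cone is the convex hull of the rational nef classes. -/
theorem cp_eqP (F : PosSys 𝒜 u Pos Au H) (hQ : IsQuotient 𝒜 u Γ) {Q : Set (N1 𝒜 Γ j)}
    (G : GoodQ Pos Q) (Rl : Rel (base Γ) j H₀) :
    closure (coneHull Q) ∩ effCone 𝒜 Γ j = Cp (intL 𝒜 Γ j) (KP 𝒜 Γ j Pos) := by
  classical
  have hexp := expo_pos hQ
  have hexpr : (0 : ℝ) < expo Γ := by exact_mod_cast hexp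
  have := hQ.fin_gal
  have hcard : (0 : ℝ) < Nat.card (gal Γ) := by
    have : 0 < Nat.card (gal Γ) := Nat.card_pos
    exact_mod_cast this
  have hcl := closure_eqP F hQ G Rl
  rw [cp_hull]
  apply Set.Subset.antisymm
  · rintro a ⟨haK, haE⟩
    rw [hcl] at haK
    rw [← split F.base hQ a]
    refine hull_add ?_ ?_
    · refine hull_ind (p := fun a => (i1 (p1 hQ a) : N1 𝒜 Γ j) ∈
        coneHull {a | a ∈ intL 𝒜 Γ j ∧ a ∈ KP 𝒜 Γ j Pos}) ?_ ?_ ?_ ?_ haE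
      · rw [map_zero, map_zero]
        exact hull_zero
      · intro a b h1 h2
        rw [map_add, map_add]
        exact hull_add h1 h2
      · intro t a ht h1
        rw [map_smul, map_smul]
        exact hull_smul ht h1
      · intro a ha
        have h2 : Pool.Agent.Y167.Integral ((expo Γ : ℝ) • p1 hQ a) := by
          obtain ⟨𝓛, f, hc, -⟩ := ha
          exact ⟨_, isClass_toLB hQ hc⟩
        refine hull_scaled hexpr ⟨?_, ?_⟩
        · rw [← map_smul]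
          exact Int.i1 h2
        · have h5 : ∀ e, 0 ≤ ((val a).1 e e).re := effective_form hQ ha
          exact KP_smul hexpr.le ⟨h5, posC_zero⟩
    · refine i2_hull' F.base hQ (Q := fun β => rv β ∈ PosC Pos) (fun β hβ h => ?_)
        (poseff_hull F hQ (p2 a).2 ⟨haK.2, eff_deg haE⟩)
      have hb : rv β ∈ Bs 𝒜 Γ := Submodule.subset_span ⟨β, hβ, rfl⟩
      refine ⟨Nat.card (gal Γ), Nat.card_pos, _,
        ⟨Int.i2 F.base hQ (b := ⟨rv β, hb⟩) hβ rfl, ?_⟩, ?_⟩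
      · exact KP_smul hcard.le ⟨fun e => le_refl (0 : ℝ), h⟩
      · rw [← map_smul, val_i2]
        rfl
  · intro a ha
    refine ⟨?_, ?_⟩
    · rw [hcl]
      exact hull_ind (p := fun a => a ∈ KP 𝒜 Γ j Pos) KP_zero
        (fun _ _ h1 h2 => KP_add h1 h2) (fun _ _ ht h => KP_smul ht h) (fun a ha => ha.2) ha
    · refine hull_le (fun a ha => ?_) ha
      rw [← split F.base hQ a]
      refine hull_add ?_ ?_
      · have h1 := nef_form Rl (Int.p1 hQ ha.1) (Pool.Agent.Y167.nef_smul hexpr.le ha.2.1)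
        have h2 := i1_hull (P := effective 𝒜 Γ j) (fun L hs a ha => bpf_effective hs ha) h1
        rw [map_smul] at h2
        have h3 := hull_smul (inv_nonneg.2 hexpr.le) h2
        rwa [smul_smul, inv_mul_cancel₀ hexpr.ne', one_smul] at h3
      · obtain ⟨β, hβ, h4⟩ := Int.p2 ha.1
        refine i2_hull' F.base hQ (Q := fun β => rv β ∈ PosC Pos)
          (fun β hβ h => deg_eff' F hQ hβ h) (hull_mem ⟨β, ⟨hβ, ?_⟩, h4⟩)
        rw [← h4]
        exact ha.2.2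

end Pool.Agent.U201.GC
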