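import Pool.Agent.U201.EC.Defs
import Pool.Agent.U201.CM.MovDefs

/-!
# Varieties `F` which satisfy the movable cone conjecture, and quotients `(A × F) / G`: definitions

The conventions are those of `Pool.Agent.X324.CF.Defs`: `F` is a normal projective variety,
`ℚ`-factorial with free class group `Cl(F) = ℤ^ρ`, with Cox ring `R = ⨁ H⁰(F, O_F(β))`, which need not
be finitely generated. The pseudo-automorphisms of `F` are given by the automorphisms of the Cox ring
which permute the homogeneous pieces.
-/

set_option autoImplicit false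

namespace Pool.Agent.U201.GC

open Pool.Agent.X324.CF Pool.Agent.U201.EC Pool.Agent.U201.CM
open Pool.Agent.Y167 (cone)
open Pool.Agent.Y167.CC (LinGrp Preserves)

section F

variable {ρ : ℕ} {R : Type*} [CommRing R] [Algebra ℂ R] (𝒜 : Cl ρ → Submodule ℂ R)

/-- The closed movable cone of `F`: the closure of the cone spanned by the movable classes. -/
def MovF : Set (Fin ρ → ℝ) := closure (coneHull {b | ∃ β, MovableF 𝒜 β ∧ b = rv β})

/-- `F` is a normal projective variety, `ℚ`-factorial with free class group `Cl(F) = ℤ^ρ` and with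
ample class `u`, which satisfies the movable cone conjecture (its existence part), and only finitely
many pseudo-automorphisms of `F` act trivially on `Cl(F)`. The conditions say: the Cox ring `R` is
factorial; every class becomes effective, and movable, when a multiple of `u` is added; for some class
of curves `y`, the coordinates of an effective class are bounded by its degree on `y`; the
automorphisms of the Cox ring which act trivially on `Cl(F)` are, up to those which are scalar on each
piece, finitely many; there is a rational polyhedral cone in the effective movable cone, spanned by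
the finite set `P`, such that every class in the effective movable cone is mapped into this cone by a
pseudo-automorphism of `F`. -/
structure IsMovConeVariety (u : Cl ρ) : Prop where
  ufd : UniqueFactorizationMonoid R
  sections : ∀ β : Cl ρ, ∃ m : ℕ, (∃ r ∈ 𝒜 (β + m • u), r ≠ 0) ∧ ∃ r ∈ 𝒜 (m • u), r ≠ 0
  ample : ∀ β : Cl ρ, ∃ m : ℕ, MovableF 𝒜 (β + m • u)
  curve : ∃ y : Cl ρ, ∀ β, (∃ r ∈ 𝒜 β, r ≠ 0) → ∀ i, |β i| ≤ ∑ k, y k * β k
  kernel : ∃ T : Set (R ≃ₐ[ℂ] R), T.Finite ∧ ∀ φ, Induces 𝒜 φ (AddEquiv.refl _) →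
    ∃ t ∈ T, ∃ s ∈ Scal 𝒜, φ = t * s
  cone : ∃ P : Finset (Fin ρ → ℝ), (∀ a ∈ P, (∃ β, a = rv β) ∧ a ∈ MovF 𝒜 ∩ EffF 𝒜) ∧
    ∀ b ∈ MovF 𝒜 ∩ EffF 𝒜, ∃ φ σ, Induces 𝒜 φ σ ∧ ext σ b ∈ cone P

end F

section X

variable {V E R : Type*} [NormedAddCommGroup V] [NormedSpace ℂ V]
  [NormedAddCommGroup E] [NormedSpace ℂ E] [CommRing R] [Algebra ℂ R] {ρ : ℕ}
  (𝒜 : Cl ρ → Submodule ℂ R) (Γ : Grp V R) (j : E →ₗ[ℂ] V)

/-- The effective movable cone. -/
def movEff : Set (N1 𝒜 Γ j) := movCone 𝒜 Γ j ∩ effCone 𝒜 Γ j

end X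

end Pool.Agent.U201.GC
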