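import Pool.Agent.U201.GC.Core
import Pool.Agent.U201.GC.MovDefs
import Pool.Agent.U201.CM.MovPoly

/-!
# The movable cone
-/

set_option autoImplicit false

namespace Pool.Agent.U201.GC

open Finset Filter Topology
open Pool.Agent.W594.SYZ2 Pool.Agent.W594.SYZ2.TQ Pool.Agent.TH735.AQ
open Pool.Agent.X324.CF Pool.Agent.U201.EC Pool.Agent.U201.CM
open Pool.Agent.Y167 (cone Rel Pol Cp CData)
open Pool.Agent.Y167.CC (LinGrp Preserves IsFundDomain)

section F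

variable {ρ : ℕ} {R : Type*} [CommRing R] [IsDomain R] [Algebra ℂ R]
  {𝒜 : Cl ρ → Submodule ℂ R} [GradedAlgebra 𝒜] {u : Cl ρ}

omit [IsDomain R] in
theorem movableF_act {φ : R ≃ₐ[ℂ] R} {σ : Cl ρ ≃+ Cl ρ} (h : Induces 𝒜 φ σ) {β : Cl ρ}
    (hβ : MovableF 𝒜 β) : MovableF 𝒜 (σ β) := by
  obtain ⟨m, hm, h1⟩ := hβ
  refine ⟨m, hm, fun a ha => ?_⟩
  have h2 : IsUnit (φ.symm a) := by
    refine h1 _ fun r hr => ?_
    obtain ⟨l, hl⟩ := ha (φ r) (by rw [← map_nsmul]; exact h _ _ hr)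
    refine ⟨φ.symm l, ?_⟩
    rw [← map_mul, ← hl, φ.symm_apply_apply]
  have h3 := h2.map φ
  rwa [φ.apply_symm_apply] at h3

theorem IsMovConeVariety.sys (F : IsMovConeVariety 𝒜 u) :
    PosSys 𝒜 u (MovableF 𝒜) (Induces 𝒜) (Induces 𝒜) := by
  have := F.ufd
  exact
  { sections := F.sections
    curve := F.curve
    kernel := F.kernel
    au_ind := fun _ _ h => h
    au_mul := fun _ _ _ _ h h' => induces_mul h h'
    au_inv := fun _ _ h => induces_inv h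
    au_fix := fun _ _ h _ => h
    pos_act := fun _ _ _ h hβ => movableF_act h hβ
    pos_zero := MovableF.zero
    pos_add := fun _ _ h h' => h.add h'
    pos_ample := F.ample
    pos_eff := fun β h => by
      obtain ⟨m, hm, h1⟩ := h
      exact ⟨m, hm, exists_ne h1⟩
    h_au := fun _ _ h => h
    h_mul := fun _ _ _ _ h h' => induces_mul h h'
    h_inv := fun _ _ h => induces_inv h
    cone := F.cone }

end F

variable {V E R : Type*} [NormedAddCommGroup V] [NormedSpace ℂ V] [FiniteDimensional ℂ V]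
  [NormedAddCommGroup E] [NormedSpace ℂ E] [CommRing R] [IsDomain R] [Algebra ℂ R] {ρ : ℕ}
  {𝒜 : Cl ρ → Submodule ℂ R} [GradedAlgebra 𝒜] {Γ : Grp V R} {j : E →ₗ[ℂ] V} {u : Cl ρ}

theorem goodQ_mov (F : IsMovConeVariety 𝒜 u) (hQ : IsQuotient 𝒜 u Γ) :
    GoodQ (MovableF 𝒜) (movable 𝒜 Γ j) := by
  have heff : ∀ a ∈ movable 𝒜 Γ j, a ∈ effective 𝒜 Γ j := by
    rintro a ⟨𝓛, hc, hm⟩
    have h1 : ∃ f, 𝓛.IsSection f ∧ ∃ v, f v ≠ 0 := by
      by_contra hcon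
      push Not at hcon
      have h2 := hm 0 (fun _ => 0) (fun _ => Submodule.zero_mem _) (holo_const 0)
        (fun f hf v => by rw [hcon f hf v]) 0
      exact not_isUnit_zero h2
    obtain ⟨f, hf, h0⟩ := h1
    exact ⟨𝓛, f, hc, hf, h0⟩
  refine
  { form := fun a ha e => effective_form hQ (heff a ha) e
    deg_mem := ?_
    bpf := fun _ hs _ ha => bpf_movable hs ha
    deg := ?_
    eff := fun a ha => hull_mem (heff a ha) }
  · rintro a ⟨𝓛, hc, hm⟩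
    have h3 : (val a).2 = rv 𝓛.deg := funext hc.2
    rw [h3]
    exact subset_closure (hull_mem ⟨_, movable_deg hm, rfl⟩)
  · classical
    intro β hβ hI
    have := F.ufd
    have := hQ.fin_gal
    have : Fintype (gal Γ) := Fintype.ofFinite _
    obtain ⟨m, hm, h1⟩ := hI
    obtain ⟨a, ha1, ha2⟩ := exists_degclass (j := j) F.sys.base hQ hβ m
    refine ⟨Nat.card (gal Γ) * m, Nat.mul_pos Nat.card_pos hm, a,
      ⟨_, ha1, fun β' E' hE' _ hd v => ?_⟩, ha2⟩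
    refine unit_of_dvd_nrm' (K := gal Γ) h1 fun r hr => ?_
    exact hd _ (ofDeg_section hr) v

/-- The cone theorem for the movable cone. -/
theorem core_mov [FiniteDimensional ℂ E] (F : IsMovConeVariety 𝒜 u) (hQ : IsQuotient 𝒜 u Γ)
    {H₀ : V → V → ℂ} (Rl : Rel (base Γ) j H₀) (𝒢 : LinGrp (N1 𝒜 Γ j))
    (hint : Preserves 𝒢 (integral 𝒜 Γ j)) (hcone : Preserves 𝒢 (movEff 𝒜 Γ j))
    (hpull : ∀ (f : V ≃ᵃ[ℂ] V) (φ : R ≃ₐ[ℂ] R) (σ : Cl ρ ≃+ Cl ρ), Induces 𝒜 φ σ →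
      Descends 𝒜 Γ f φ → (∀ v, ∃ e, f v = v + j e) → ∀ g, IsPull f σ g → g ∈ 𝒢) :
    ∃ S : Finset (N1 𝒜 Γ j), ↑S ⊆ integral 𝒜 Γ j ∧ cone S ⊆ movEff 𝒜 Γ j ∧
      IsFundDomain 𝒢 (movEff 𝒜 Γ j) (cone S) := by
  refine coreP F.sys hQ (goodQ_mov F hQ) Rl (fun _ => True) (fun _ _ _ _ _ => trivial) 𝒢 hint hcone
    ?_ ?_
  · intro f hf hf2 _ g hg
    refine hpull f 1 (AddEquiv.refl _) induces_one (descends_of_norm hf) hf2 g fun x =>
      ⟨(hg x).1, ?_⟩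
    rw [(hg x).2, ← rs_apply, rs_refl]
    rfl
  · intro φ σ hφ hc g hg
    refine hpull 1 φ⁻¹ σ.symm (induces_inv hφ) (descends_of_comm hφ hc)
      (fun v => ⟨0, by rw [map_zero, add_zero]; rfl⟩) g fun a => ⟨fun v w v' w' hv hw => ?_, ?_⟩
    · have hv' : j v' = j v := hv
      have hw' : j w' = j w := hw
      rw [(hg a).1, Rl.inj hv', Rl.inj hw']
    · rw [← rs_apply, rs_symm, (hg a).2]
      exact (rs σ).symm_apply_apply _

end Pool.Agent.U201.GC
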