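import Pool.Agent.U201.EC.FData

/-!
# Cones of positive classes of `F`, in general
-/

set_option autoImplicit false

namespace Pool.Agent.U201.GC

open Finset Filter Topology
open Pool.Agent.X324.CF Pool.Agent.U201.EC
open Pool.Agent.Y167 (cone cone_add cone_smul cone_le cone_mono cone_sum mem_cone_self
  zero_mem_cone cone_image cone_ind cone_of_scaled mem_cone_of_sum CData Cp)

variable {ρ : ℕ} {R : Type*} [CommRing R] [Algebra ℂ R]
  {𝒜 : Cl ρ → Submodule ℂ R} {u : Cl ρ} {Pos : Cl ρ → Prop}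
  {Au H : (R ≃ₐ[ℂ] R) → (Cl ρ ≃+ Cl ρ) → Prop}

/-- The real vectors of the positive classes. -/
def posR (Pos : Cl ρ → Prop) : Set (Fin ρ → ℝ) := {b | ∃ β, Pos β ∧ b = rv β}

/-- The closed cone spanned by the positive classes. -/
def PosC (Pos : Cl ρ → Prop) : Set (Fin ρ → ℝ) := closure (coneHull (posR Pos))

variable (𝒜 u Pos Au H) in
/-- A class of positive classes, a group `Au` of automorphisms which preserves it, and a subgroup `H`
for which the cone conjecture holds. -/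
structure PosSys : Prop where
  sections : ∀ β : Cl ρ, ∃ m : ℕ, (∃ r ∈ 𝒜 (β + m • u), r ≠ 0) ∧ ∃ r ∈ 𝒜 (m • u), r ≠ 0
  curve : ∃ y : Cl ρ, ∀ β, (∃ r ∈ 𝒜 β, r ≠ 0) → ∀ i, |β i| ≤ ∑ k, y k * β k
  kernel : ∃ T : Set (R ≃ₐ[ℂ] R), T.Finite ∧ ∀ φ, Induces 𝒜 φ (AddEquiv.refl _) →
    ∃ t ∈ T, ∃ s ∈ Scal 𝒜, φ = t * s
  au_ind : ∀ φ σ, Au φ σ → Induces 𝒜 φ σ
  au_mul : ∀ φ σ ψ τ, Au φ σ → Au ψ τ → Au (φ * ψ) (τ.trans σ)
  au_inv : ∀ φ σ, Au φ σ → Au φ⁻¹ σ.symm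
  au_fix : ∀ φ σ, Induces 𝒜 φ σ → σ u = u → Au φ σ
  pos_act : ∀ φ σ β, Au φ σ → Pos β → Pos (σ β)
  pos_zero : Pos 0
  pos_add : ∀ β β', Pos β → Pos β' → Pos (β + β')
  pos_ample : ∀ β : Cl ρ, ∃ m : ℕ, Pos (β + m • u)
  pos_eff : ∀ β, Pos β → ∃ m : ℕ, 0 < m ∧ ∃ r ∈ 𝒜 (m • β), r ≠ 0
  h_au : ∀ φ σ, H φ σ → Au φ σ
  h_mul : ∀ φ σ ψ τ, H φ σ → H ψ τ → H (φ * ψ) (τ.trans σ)
  h_inv : ∀ φ σ, H φ σ → H φ⁻¹ σ.symm
  cone : ∃ P : Finset (Fin ρ → ℝ), (∀ a ∈ P, (∃ β, a = rv β) ∧ a ∈ PosC Pos ∩ EffF 𝒜) ∧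
    ∀ b ∈ PosC Pos ∩ EffF 𝒜, ∃ φ σ, H φ σ ∧ ext σ b ∈ cone P

theorem PosSys.base (F : PosSys 𝒜 u Pos Au H) : Base 𝒜 (w0 ρ) where
  gens := fun H hH => by
    rw [eq_top_iff]
    intro β _
    obtain ⟨m, h1, h2⟩ := F.sections β
    have h3 := H.sub_mem (hH _ h1) (hH _ h2)
    rwa [add_sub_cancel_right] at h3
  pointed := fun c _ => funext fun i => i.elim0

theorem PosSys.pos_sum (F : PosSys 𝒜 u Pos Au H) {ι : Type*} (s : Finset ι) (f : ι → Cl ρ)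
    (h : ∀ i ∈ s, Pos (f i)) : Pos (∑ i ∈ s, f i) := by
  classical
  induction s using Finset.induction_on with
  | empty => rw [Finset.sum_empty]; exact F.pos_zero
  | insert i s hi ih =>
    rw [Finset.sum_insert hi]
    exact F.pos_add _ _ (h i (Finset.mem_insert_self _ _))
      (ih fun j hj => h j (Finset.mem_insert_of_mem hj))

theorem posC_add {x y : Fin ρ → ℝ} (hx : x ∈ PosC Pos) (hy : y ∈ PosC Pos) :
    x + y ∈ PosC Pos :=
  map_mem_closure₂ continuous_add hx hy fun _ ha _ hb => hull_add ha hb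

theorem posC_smul {x : Fin ρ → ℝ} {t : ℝ} (ht : 0 ≤ t) (hx : x ∈ PosC Pos) :
    t • x ∈ PosC Pos :=
  map_mem_closure (continuous_const_smul t) hx fun _ ha => hull_smul ht ha

theorem posC_zero : (0 : Fin ρ → ℝ) ∈ PosC Pos := subset_closure hull_zero

theorem posC_act (F : PosSys 𝒜 u Pos Au H) {φ : R ≃ₐ[ℂ] R} {σ : Cl ρ ≃+ Cl ρ}
    (h : Au φ σ) {x : Fin ρ → ℝ} (hx : x ∈ PosC Pos) : rs σ x ∈ PosC Pos := by
  have h1 : Set.MapsTo (rl σ) (coneHull (posR Pos)) (coneHull (posR Pos)) := by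
    intro a ha
    refine hull_map ?_ ha
    rintro _ ⟨β, hβ, rfl⟩
    rw [rl_rv]
    exact hull_mem ⟨_, F.pos_act _ _ _ h hβ, rfl⟩
  exact h1.closure (rl_continuous _) hx

/-- The group of the actions of the automorphisms on real classes. -/
noncomputable def actH (F : PosSys 𝒜 u Pos Au H) : Subgroup ((Fin ρ → ℝ) ≃ₗ[ℝ] (Fin ρ → ℝ)) where
  carrier := {g | ∃ φ σ, Au φ σ ∧ g = rs σ}
  one_mem' := ⟨1, _, F.au_fix _ _ induces_one rfl, rs_refl.symm⟩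
  mul_mem' := by
    rintro _ _ ⟨φ, σ, h, rfl⟩ ⟨ψ, τ, h', rfl⟩
    exact ⟨_, _, F.au_mul _ _ _ _ h h', (rs_trans _ _).symm⟩
  inv_mem' := by
    rintro _ ⟨φ, σ, h, rfl⟩
    exact ⟨_, _, F.au_inv _ _ h, (rs_symm _).symm⟩

theorem pos_effR (F : PosSys 𝒜 u Pos Au H) {a : Fin ρ → ℝ} (ha : a ∈ posR Pos) : a ∈ EffF 𝒜 := by
  obtain ⟨β, hβ, rfl⟩ := ha
  obtain ⟨m, hm, r, hr, hr0⟩ := F.pos_eff β hβ
  have hmr : (0 : ℝ) < m := by exact_mod_cast hm
  refine hull_scaled hmr ⟨m • β, ⟨r, hr, hr0⟩, ?_⟩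
  rw [rv_nsmul]

theorem pos_eff_hull (F : PosSys 𝒜 u Pos Au H) {a : Fin ρ → ℝ} (ha : a ∈ coneHull (posR Pos)) :
    a ∈ EffF 𝒜 := hull_le (fun _ h => pos_effR F h) ha

theorem bound_pos (F : PosSys 𝒜 u Pos Au H) {y : Cl ρ}
    (hy : ∀ β, (∃ r ∈ 𝒜 β, r ≠ 0) → ∀ i, |β i| ≤ ∑ k, y k * β k)
    {x : Fin ρ → ℝ} (hx : x ∈ PosC Pos) (i : Fin ρ) : |x i| ≤ dot (rv y) x := by
  have h1 : closure (coneHull (posR Pos)) ⊆ {x | |x i| ≤ dot (rv y) x} := by
    refine closure_minimal (fun a ha => bound_eff hy (pos_eff_hull F ha) i) ?_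
    exact isClosed_le (continuous_abs.comp (continuous_apply i)) (dot_continuous _)
  exact h1 hx

theorem pos_u (F : PosSys 𝒜 u Pos Au H) : rv u ∈ coneHull (posR Pos) := by
  obtain ⟨m, hm⟩ := F.pos_ample u
  have h1 : ((m : ℝ) + 1) • rv u ∈ posR Pos := ⟨u + m • u, hm, by
    rw [rv_add, rv_nsmul]
    module⟩
  exact hull_scaled (by positivity) h1

theorem near' (F : PosSys 𝒜 u Pos Au H) : ∃ c : Fin ρ → ℝ, (∀ k, 0 ≤ c k) ∧
    ∀ (b : Fin ρ → ℝ) (t : ℝ), ∑ k, |b k| * c k ≤ t → t • rv u - b ∈ coneHull (posR Pos) := by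
  classical
  choose m hm using F.pos_ample
  have hu := pos_u F
  refine ⟨fun k => (m (Pi.single k 1) : ℝ) + m (-Pi.single k 1), fun k => by positivity,
    fun b t ht => ?_⟩
  have h1 : ∀ k, (|b k| * ((m (Pi.single k 1) : ℝ) + m (-Pi.single k 1))) • rv u
      - b k • rv (Pi.single k 1) ∈ coneHull (posR Pos) := by
    intro k
    rcases le_total 0 (b k) with h | h
    · have h2 := hull_add (hull_smul h (hull_mem (P := posR Pos) ⟨_, hm (-Pi.single k 1), rfl⟩))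
        (hull_smul (t := b k * m (Pi.single k 1)) (by positivity) hu)
      have h3 : b k • rv (-Pi.single k 1 + m (-Pi.single k 1) • u)
          + (b k * m (Pi.single k 1)) • rv u
          = (|b k| * ((m (Pi.single k 1) : ℝ) + m (-Pi.single k 1))) • rv u
            - b k • rv (Pi.single k 1) := by
        rw [abs_of_nonneg h, rv_add, rv_neg, rv_nsmul]
        module
      rwa [h3] at h2
    · have h2 := hull_add (hull_smul (neg_nonneg.2 h)
        (hull_mem (P := posR Pos) ⟨_, hm (Pi.single k 1), rfl⟩))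
        (hull_smul (t := -b k * m (-Pi.single k 1)) (mul_nonneg (neg_nonneg.2 h)
          (Nat.cast_nonneg _)) hu)
      have h3 : (-b k) • rv (Pi.single k 1 + m (Pi.single k 1) • u)
          + (-b k * m (-Pi.single k 1)) • rv u
          = (|b k| * ((m (Pi.single k 1) : ℝ) + m (-Pi.single k 1))) • rv u
            - b k • rv (Pi.single k 1) := by
        rw [abs_of_nonpos h, rv_add, rv_nsmul]
        module
      rwa [h3] at h2
  have h2 : ∀ s : Finset (Fin ρ), (∑ k ∈ s, |b k| * ((m (Pi.single k 1) : ℝ)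
      + m (-Pi.single k 1))) • rv u - ∑ k ∈ s, b k • rv (Pi.single k 1)
        ∈ coneHull (posR Pos) := by
    intro s
    induction s using Finset.induction_on with
    | empty => simpa using hull_zero
    | insert k s hk ih =>
      rw [Finset.sum_insert hk, Finset.sum_insert hk, add_smul, add_sub_add_comm]
      exact hull_add (h1 k) ih
  have h4 := h2 Finset.univ
  rw [rv_basis] at h4
  have h5 := hull_add h4 (hull_smul (sub_nonneg.2 ht) hu)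
  have h6 : (∑ k, |b k| * ((m (Pi.single k 1) : ℝ) + m (-Pi.single k 1))) • rv u - b
      + (t - ∑ k, |b k| * ((m (Pi.single k 1) : ℝ) + m (-Pi.single k 1))) • rv u
      = t • rv u - b := by
    rw [sub_smul]
    abel
  rwa [h6] at h5

/-- Interior points of the cone are combinations of positive classes. -/
theorem inn_hull' (F : PosSys 𝒜 u Pos Au H) {x : Fin ρ → ℝ} (hx : Inn (PosC Pos) (rv u) x) :
    x ∈ coneHull (posR Pos) := by
  obtain ⟨t, ht, h1⟩ := hx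
  obtain ⟨c, hc, hnear⟩ := near' F
  have hcont : Continuous fun z : Fin ρ → ℝ => ∑ k, |(z - (x - t • rv u)) k| * c k := by
    refine continuous_finsetSum _ fun k _ => ?_
    exact (continuous_abs.comp ((continuous_apply k).comp
      (continuous_id.sub continuous_const))).mul continuous_const
  have hopen : IsOpen {z : Fin ρ → ℝ | ∑ k, |(z - (x - t • rv u)) k| * c k < t} :=
    isOpen_lt hcont continuous_const
  obtain ⟨z, hz1, hz2⟩ := mem_closure_iff.1 h1 _ hopen (by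
    change ∑ k, |((x - t • rv u) - (x - t • rv u)) k| * c k < t
    simpa using ht)
  have h2 := hull_add hz2 (hnear (z - (x - t • rv u)) t hz1.le)
  have h3 : z + (t • rv u - (z - (x - t • rv u))) = x := by abel
  rwa [h3] at h2

/-- The data for the fundamental domain, on a space which is mapped injectively to the space of
real classes. -/
theorem cdata_of' (F : PosSys 𝒜 u Pos Au H) {W' : Type*} [AddCommGroup W'] [Module ℝ W']
    [FiniteDimensional ℝ W'] (ι : W' →ₗ[ℝ] (Fin ρ → ℝ)) (hι : Function.Injective ι) {y₀ : W'}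
    (hy : ι y₀ = rv u) {L' : AddSubgroup W'} (hyL : y₀ ∈ L')
    (hL : ∀ x ∈ L', ∃ β : Cl ρ, ι x = rv β) (hspan : Submodule.span ℝ (L' : Set W') = ⊤) :
    ∃ (ξ : W' →ₗ[ℝ] ℝ) (Y : Finset W'), CData L' {x | ι x ∈ PosC Pos} ξ y₀ Y := by
  classical
  obtain ⟨y, hyc⟩ := F.curve
  obtain ⟨c, hc, hnear⟩ := near' F
  have hadd : ∀ a ∈ {x | ι x ∈ PosC Pos}, ∀ b ∈ {x | ι x ∈ PosC Pos},
      a + b ∈ {x | ι x ∈ PosC Pos} := fun a ha b hb => by
    change ι (a + b) ∈ PosC Pos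
    rw [map_add]
    exact posC_add ha hb
  have hsmul : ∀ t : ℝ, 0 ≤ t → ∀ a ∈ {x | ι x ∈ PosC Pos}, t • a ∈ {x | ι x ∈ PosC Pos} :=
    fun t ht a ha => by
    change ι (t • a) ∈ PosC Pos
    rw [map_smul]
    exact posC_smul ht ha
  have yK : y₀ ∈ {x | ι x ∈ PosC Pos} := by
    change ι y₀ ∈ PosC Pos
    rw [hy]
    exact subset_closure (pos_u F)
  have yint : ∀ b : W', ∃ C : ℝ, 0 < C ∧ C • y₀ - b ∈ {x | ι x ∈ PosC Pos} := by
    intro b
    refine ⟨∑ k, |ι b k| * c k + 1, ?_, ?_⟩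
    · have : 0 ≤ ∑ k, |ι b k| * c k :=
        Finset.sum_nonneg fun k _ => mul_nonneg (abs_nonneg _) (hc k)
      linarith
    · change ι (_ • y₀ - b) ∈ PosC Pos
      rw [map_sub, map_smul, hy]
      exact subset_closure (hnear _ _ (by linarith))
  obtain ⟨Y, hY1, hY2⟩ := exists_Y hadd hsmul hyL yK yint hspan
  have hb : ∀ x ∈ {x | ι x ∈ PosC Pos}, ∀ i, |ι x i| ≤ (dot (rv y) ∘ₗ ι) x :=
    fun x hx i => bound_pos F hyc hx i
  have hex : ∀ x : W', x ≠ 0 → ∃ k, ι x k ≠ 0 := by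
    intro x hx
    by_contra hcon
    push Not at hcon
    exact hx (hι (by rw [map_zero]; exact funext hcon))
  refine ⟨dot (rv y) ∘ₗ ι, Y,
    { add := hadd
      smul := hsmul
      xi_int := fun b hb => ?_
      xi_pos := fun b hb' hb0 => ?_
      fin := fun C => ?_
      y_L := hyL
      y_N := yK
      y_int := yint
      dom := fun η => ?_
      sep := fun b hb0 => ?_
      Y_mem := hY1
      Y_span := hY2 }⟩
  · obtain ⟨β, h1⟩ := hL b hb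
    rw [LinearMap.comp_apply, h1, dot_int]
    exact ⟨_, rfl⟩
  · obtain ⟨k, hk⟩ := hex b hb0
    exact lt_of_lt_of_le (abs_pos.2 hk) (hb b hb' k)
  · refine Set.Finite.of_finite_image (f := ι) ?_ hι.injOn
    refine ((Set.finite_Icc (fun _ : Fin ρ => -⌈C⌉) (fun _ => ⌈C⌉)).image rv).subset ?_
    rintro _ ⟨x, ⟨hxL, hxK, hxC⟩, rfl⟩
    obtain ⟨β, h1⟩ := hL x hxL
    have h2 : ∀ i, |β i| ≤ ⌈C⌉ := by
      intro i
      have h3 := (hb x hxK i).trans (hxC.trans (Int.le_ceil C))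
      rw [h1, rv_apply, ← Int.cast_abs] at h3
      exact_mod_cast h3
    exact ⟨β, ⟨fun i => (abs_le.1 (h2 i)).1, fun i => (abs_le.1 (h2 i)).2⟩, h1.symm⟩
  · obtain ⟨g, hg⟩ := ι.exists_leftInverse_of_injective (LinearMap.ker_eq_bot.2 hι)
    refine ⟨∑ k, |η (g (rv (Pi.single k 1)))|, fun x hx => ?_⟩
    have h1 : η x = ∑ k, ι x k * η (g (rv (Pi.single k 1))) := by
      have h2 : x = g (ι x) := (LinearMap.congr_fun hg x).symm
      conv_lhs => rw [h2, ← rv_basis (ι x), map_sum, map_sum]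
      exact Finset.sum_congr rfl fun k _ => by rw [map_smul, map_smul, smul_eq_mul]
    rw [h1, Finset.sum_mul]
    refine (Finset.abs_sum_le_sum_abs _ _).trans (Finset.sum_le_sum fun k _ => ?_)
    rw [abs_mul, mul_comm]
    exact mul_le_mul_of_nonneg_left (hb x hx k) (abs_nonneg _)
  · obtain ⟨k, hk⟩ := hex b hb0
    refine ⟨LinearMap.proj k ∘ₗ ι, fun x hx => ?_, hk⟩
    obtain ⟨β, h1⟩ := hL x hx
    exact ⟨β k, by rw [LinearMap.comp_apply, h1]; rfl⟩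

theorem exists_cdataP (F : PosSys 𝒜 u Pos Au H) : ∃ (ξ : (Fin ρ → ℝ) →ₗ[ℝ] ℝ)
    (Y : Finset (Fin ρ → ℝ)), CData (ZL ρ) (PosC Pos) ξ (rv u) Y :=
  cdata_of' F LinearMap.id Function.injective_id rfl ⟨u, rfl⟩ (fun _ hx => hx) span_ZL

theorem actH_L (F : PosSys 𝒜 u Pos Au H) : ∀ g ∈ actH F, ∀ x ∈ ZL ρ, g x ∈ ZL ρ := by
  rintro _ ⟨φ, σ, -, rfl⟩ _ ⟨β, rfl⟩
  rw [rs_rv]
  exact ⟨_, rfl⟩

theorem actH_N (F : PosSys 𝒜 u Pos Au H) : ∀ g ∈ actH F, ∀ x ∈ PosC Pos, g x ∈ PosC Pos := by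
  rintro _ ⟨φ, σ, h, rfl⟩ x hx
  exact posC_act F h hx

/-- Every class in the hull of the rational classes of the cone is mapped to the fundamental cone. -/
theorem cover_cp' (F : PosSys 𝒜 u Pos Au H) {P : Finset (Fin ρ → ℝ)}
    (hP : ∀ a ∈ P, (∃ β, a = rv β) ∧ a ∈ PosC Pos ∩ EffF 𝒜)
    (hcov : ∀ b ∈ PosC Pos ∩ EffF 𝒜, ∃ φ σ, H φ σ ∧ ext σ b ∈ cone P)
    {b : Fin ρ → ℝ} (hb : b ∈ Cp (ZL ρ) (PosC Pos)) :
    ∃ φ σ, Au φ σ ∧ rs σ b ∈ cone P := by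
  obtain ⟨ξ, Y, D⟩ := exists_cdataP F
  obtain ⟨g, ⟨φ, σ, h1, rfl⟩, h2⟩ := closed_cover D (actH_L F) (actH_N F) P
    (fun a ha => ⟨(hP a ha).1, (hP a ha).2.1⟩) (fun x hx => by
      have h3 := inn_hull' F hx
      obtain ⟨φ, σ, h4, h5⟩ := hcov x ⟨subset_closure h3, pos_eff_hull F h3⟩
      exact ⟨rs σ, ⟨φ, σ, F.h_au _ _ h4, rfl⟩, h5⟩) hb
  exact ⟨φ, σ, h1, h2⟩

/-- An integral class in the cone has an effective multiple. -/
theorem pos_mult [IsDomain R] [GradedAlgebra 𝒜] (F : PosSys 𝒜 u Pos Au H) {β : Cl ρ}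
    (h : rv β ∈ PosC Pos) : ∃ m : ℕ, 0 < m ∧ ∃ r ∈ 𝒜 (m • β), r ≠ 0 := by
  classical
  obtain ⟨P, hP, hcov⟩ := F.cone
  obtain ⟨φ, σ, h1, h2⟩ := cover_cp' F hP hcov (b := rv β)
    ⟨{rv β}, fun a ha => by
      rw [Finset.mem_singleton] at ha
      rw [ha]
      exact ⟨⟨β, rfl⟩, h⟩, mem_cone_self (Finset.mem_singleton_self _)⟩
  rw [rs_rv] at h2
  have h3 : rv (σ β) ∈ EffF 𝒜 := hull_of_cone (fun a ha => (hP a ha).2.2) h2
  obtain ⟨m, hm, r, hr, hr0⟩ := eff_mult h3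
  refine ⟨m, hm, φ.symm r, ?_, ?_⟩
  · rw [← induces_mem (F.au_ind _ _ h1), map_nsmul, φ.apply_symm_apply]
    exact hr
  · rwa [Ne, map_eq_zero_iff _ φ.symm.injective]

end Pool.Agent.U201.GC
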